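import Pool.Agent.Helper86.UQ.St5

/-! Module CNT of project UQ: double counting of edges at the vertices of a finite set. -/

set_option autoImplicit false

open Finset

namespace Pool.Agent.Helper10.UQ

open Classical Pool.Agent.Helper30.RCU Pool.Agent.Helper1.UQ Pool.Agent.Helper86.UQ

universe u

theorem hCNT (hMTE : StMTE.{u}) : StCNT.{u} := by
  intro V G hlf I a ha0 ha1
  have hv : ∀ (v : V) (e : G.edgeSet), e ∈ te G {v} ↔ v ∈ (e : Sym2 V) := by
    intro v e
    rw [(hMTE V G hlf {v} e).1]
    constructor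
    · rintro ⟨w, hw, hw2⟩
      rw [Finset.mem_singleton] at hw2
      rwa [← hw2]
    · intro h
      exact ⟨v, h, Finset.mem_singleton_self v⟩
  have hI : ∀ e : G.edgeSet, e ∈ te G I ↔ ∃ v ∈ (e : Sym2 V), v ∈ I := fun e =>
    (hMTE V G hlf I e).1
  have hB : ∀ e : G.edgeSet, e ∈ bd G I ↔
      (∃ v ∈ (e : Sym2 V), v ∈ I) ∧ ∃ v ∈ (e : Sym2 V), v ∉ I := fun e =>
    (hMTE V G hlf I e).2
  -- exchange of the sums
  have hsum : ∑ v ∈ I, ∑ e ∈ te G {v}, a e
      = ∑ e ∈ te G I, ∑ v ∈ I.filter (fun v => v ∈ (e : Sym2 V)), a e := by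
    refine Finset.sum_comm' ?_
    intro v e
    rw [hv, hI, Finset.mem_filter]
    constructor
    · rintro ⟨h1, h2⟩
      exact ⟨⟨h1, h2⟩, v, h2, h1⟩
    · rintro ⟨⟨h1, h2⟩, _⟩
      exact ⟨h1, h2⟩
  -- the number of ends in `I`
  have hk : ∀ e : G.edgeSet, (I.filter (fun v => v ∈ (e : Sym2 V))).card ≤ 2 ∧
      (e ∈ te G I → 1 ≤ (I.filter (fun v => v ∈ (e : Sym2 V))).card ∧
        (e ∉ bd G I → (I.filter (fun v => v ∈ (e : Sym2 V))).card = 2)) := by
    rintro ⟨e, he⟩
    induction e using Sym2.ind with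
    | _ x y =>
      have hadj : G.Adj x y := by simpa using he
      have hxy : x ≠ y := hadj.ne
      refine ⟨?_, ?_⟩
      · have h1 : I.filter (fun v => v ∈ (s(x, y) : Sym2 V)) ⊆ {x, y} := by
          intro v hv
          rw [Finset.mem_filter, Sym2.mem_iff] at hv
          rw [Finset.mem_insert, Finset.mem_singleton]
          exact hv.2
        exact (Finset.card_le_card h1).trans (Finset.card_le_two)
      · intro h2
        refine ⟨?_, ?_⟩
        · obtain ⟨v, hv1, hv2⟩ := (hI _).1 h2
          exact Finset.card_pos.2 ⟨v, Finset.mem_filter.2 ⟨hv2, hv1⟩⟩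
        · intro h3
          have h4 : ∀ v, v ∈ (s(x, y) : Sym2 V) → v ∈ I := by
            intro v hv
            by_contra hcon
            exact h3 ((hB _).2 ⟨(hI _).1 h2, v, hv, hcon⟩)
          have h5 : I.filter (fun v => v ∈ (s(x, y) : Sym2 V)) = {x, y} := by
            ext v
            rw [Finset.mem_filter, Sym2.mem_iff, Finset.mem_insert, Finset.mem_singleton]
            constructor
            · exact fun h => h.2
            · intro h
              exact ⟨h4 v (Sym2.mem_iff.2 h), h⟩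
          show (I.filter (fun v => v ∈ (s(x, y) : Sym2 V))).card = 2
          rw [h5, Finset.card_pair hxy]
  have hbd : ∑ e ∈ te G I, (if e ∈ bd G I then (1 : ℝ) else 0) ≤ ((bd G I).card : ℝ) := by
    rw [Finset.sum_boole]
    have h6 : (te G I).filter (fun e => e ∈ bd G I) ⊆ bd G I := fun e he =>
      (Finset.mem_filter.1 he).2
    exact_mod_cast Finset.card_le_card h6
  rw [hsum]
  constructor
  · rw [Finset.mul_sum]
    refine Finset.sum_le_sum fun e _ => ?_
    rw [Finset.sum_const, nsmul_eq_mul]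
    have h7 : ((I.filter (fun v => v ∈ (e : Sym2 V))).card : ℝ) ≤ 2 := by
      exact_mod_cast (hk e).1
    exact mul_le_mul_of_nonneg_right h7 (ha0 e)
  · refine le_trans ?_ (add_le_add_right hbd _)
    rw [Finset.mul_sum, ← Finset.sum_add_distrib]
    refine Finset.sum_le_sum fun e he => ?_
    rw [Finset.sum_const, nsmul_eq_mul]
    obtain ⟨h8, h9⟩ := (hk e).2 he
    by_cases hb : e ∈ bd G I
    · rw [if_pos hb]
      have h10 : (1 : ℝ) ≤ ((I.filter (fun v => v ∈ (e : Sym2 V))).card : ℝ) := by
        exact_mod_cast h8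
      have h11 := mul_le_mul_of_nonneg_right h10 (ha0 e)
      have h12 := ha1 e
      linarith
    · rw [if_neg hb, h9 hb]
      push_cast
      linarith

end Pool.Agent.Helper10.UQ
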